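import Pool.Agent.T3h87.SS.Many

/-!
# The Tate conjecture at `p`, with exact rank, for almost all members of sparse families of surfaces
# `w ^ q = ∏ (x ^ M - ρ_i) u(x ^ M) + (b(x ^ M) + c t ^ (p ^ d)) ^ q`, for all `p`, `q` and all number fields at the same time

Let `n ≥ 1`, `D ≥ 2`, `n ≤ r + 1`. For a vector `v` of `n + D + r + 2` integers let `ρ_1, …, ρ_n` be the first coordinates, `u` monic of
degree `D` and `b` of degree at most `r` with the next coordinates as coefficients, and `c` the last coordinate. Let `p` be a prime,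
`q = p ^ (s + 1)`, `q r < n + D`, `p` prime to `n + D`, and `R` odd and prime to `p` (`Admissible`). Let `k` be a number field which
contains the roots of unity of order `q` and a `p`-th root of `-1`. For `d ≥ 1` and `M ≥ 1` let `J` be the Jacobian of the curve

  `w ^ q = (x ^ M - ρ_1) ⋯ (x ^ M - ρ_n) u(x ^ M) + (b(x ^ M) + c t ^ (p ^ d)) ^ q`

over `K = k(t)`; its dimension is `(q - 1) ((n + D) M - 1) / 2`. We say that `v` works (`ManyWorks`) if `c ≠ 0`, certain polynomials
are irreducible, and for ALL `d ≥ 1` and ALL `M` which divide a power of `R`: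
1. every class of `V_p` of the Selmer group of `J` over `k^sep(t)` which is fixed by the Galois group comes from `J(K)` (the Tate
   conjecture for divisors at `p` for the surface);
2. the `p`-primary part of the Tate-Shafarevich group of `J` over `K` is zero;
3. `n (q - 1)` elements of `J(K)` are a basis of `J(K)` at `p`: the rank of `J(K)` is exactly `n (q - 1)`.

The coordinates of `v` are independent random members of sparse families of integers, of the six kinds `Kind` (in the file
`Pool.Agent.T3h87.LT.Kinds`): automatic sets (for example missing digits); random integers whose blocks of digits can be exchanged;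
rearrangements of given digits; palindromes; residues with small Fourier coefficients; integer parts of functions of non-integral
order. `Fam` is a random integer, given by finitely many values with weights, with a size; different coordinates may be in families
of different kinds and of very different sizes.

Theorem. (1) There are `e` and `η > 0`, which depend on the kinds only, such that the probability that `v` does not work is at most
`Y ^ (-η) ∑ (1 + |log (size of f l)|) ^ e`, where `Y` is a lower bound of the sizes, for all `k`, `p`, `s`, `R` and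
`Y ≥ Y₀(k, p, s, R)`.
(2) There is `A` such that for every sequence `X 0, X 1, ...` of random vectors (with an arbitrary joint distribution) with
coordinates in such families with sizes at least `(i + 1) ^ A` (and at most `exp (Y ^ (1 / A))` for a common lower bound `Y` of
the sizes of the coordinates of `X i`), almost surely: for ALL number fields `k` and ALL `p`, `s`, `R` the vector `X i` works for all but
FINITELY many `i`.

The boxes `|v_i| ≤ H` are a special case; the theorem `AlmostAllManySections` treats them for one `k`, `p`, `s`, `R` and shows that the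
proportion of the exceptions tends to zero.

Proof. The local tests of `AlmostAllManySections` (helpers 100, 160, 430, 737, 833, 971), at a positive proportion of the primes,
and a sieve for sparse families: the uniform distribution of sums of local functions (`Pool.Agent.T3h87.LT`).
-/

set_option autoImplicit false

open Filter MeasureTheory

namespace Pool.Agent.Results.MP_17a657_ag.SparseManySections

open Pool.Agent.Y160.SL (ManyWorks)
open Pool.Agent.T3h87.LT (Fam Kind)
open Pool.Agent.T3h87.SS (probability HasLaw Growing)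

/-- The conditions on the parameters. -/
def Admissible (p s n D r R : ℕ) : Prop :=
  p.Prime ∧ 0 < n ∧ 2 ≤ D ∧ n ≤ r + 1 ∧ p ^ (s + 1) * r < n + D ∧ p.Coprime (n + D) ∧ Odd R ∧ p.Coprime R

/-- The vectors of the coefficients. -/
abbrev Ix (n D r : ℕ) : Type := Fin (n + (D + (r + 2)))

/-- **Theorem.** Let `𝓕 l` be kinds of sparse families. There are `e`, `η > 0`, `A > 0` such that for all `κ l ≠ 0`:
(1) for all number fields `k` and all admissible `p`, `s`, `R`, such that `k` contains a primitive root of unity `ζ` of order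
`p ^ (s + 1)` and a `p`-th root `θ` of `-1`, there is `Y₀` such that the probability that a vector with independent coordinates in
the families `𝓕 l (κ l)` of sizes at least `Y ≥ Y₀` does not work is at most `Y ^ (-η) ∑ (1 + |log size|) ^ e`;
(2) for all sequences `X i` of such random vectors, which are `Growing A`, almost surely: for all such `k` (in an algebraic closure),
`p`, `s`, `R` all but finitely many of the vectors `X i` work. -/
theorem result (n D r : ℕ) (𝓕 : Ix n D r → ℤ → Set Fam) (h𝓕 : ∀ l, Kind (𝓕 l)) :
    ∃ (e : ℕ) (η A : ℝ), 0 < η ∧ 0 < A ∧ ∀ κ : Ix n D r → ℤ, (∀ l, κ l ≠ 0) →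
      (∀ (k : Type) [Field k] [NumberField k] (p s R : ℕ) (ζ θ : k), Admissible p s n D r R →
        IsPrimitiveRoot ζ (p ^ (s + 1)) → θ ^ p = -1 →
        ∃ Y₀ : ℝ, 1 ≤ Y₀ ∧ ∀ Y : ℝ, Y₀ ≤ Y → ∀ f : Ix n D r → Fam, (∀ l, f l ∈ 𝓕 l (κ l)) → (∀ l, Y ≤ (f l).size) →
          probability f (fun v => ¬ ManyWorks p (p ^ (s + 1)) n D r R k v) ≤ Y ^ (-η) * ∑ l, (1 + |Real.log (f l).size|) ^ e) ∧
      (∀ (Ω : Type) [MeasurableSpace Ω] (P : Measure Ω) [IsProbabilityMeasure P] (X : ℕ → Ω → Ix n D r → ℤ)
        (f : ℕ → Ix n D r → Fam), (∀ i l, f i l ∈ 𝓕 l (κ l)) → (∀ i, HasLaw P (X i) (f i)) → Growing A f →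
        ∀ᵐ w ∂P, ∀ k : IntermediateField ℚ (AlgebraicClosure ℚ), FiniteDimensional ℚ k → ∀ (p s R : ℕ) (ζ θ : k),
          Admissible p s n D r R → IsPrimitiveRoot ζ (p ^ (s + 1)) → θ ^ p = -1 →
          ∀ᶠ i in atTop, ManyWorks p (p ^ (s + 1)) n D r R k (X i w)) := by
  obtain ⟨e, η, hη, H⟩ := Pool.Agent.T3h87.SS.many_rare n D r 𝓕 h𝓕
  refine ⟨e, η, 4 / η + 2 * e / η, hη, by positivity, fun κ hκ => ⟨fun k _ _ p s R ζ θ h1 h2 h3 => H κ hκ k p s R ζ θ h1 h2 h3,
    fun Ω _ P _ X f hf hX hg => ?_⟩⟩
  have key := Pool.Agent.T3h87.SS.ae_all_fields (K := ℚ) P (fun E [Field E] => (ℕ × ℕ × ℕ) × (E × E))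
    (fun E [Field E] hE => inferInstance)
    (fun E [Field E] [Algebra ℚ E] t i w => Admissible t.1.1 t.1.2.1 n D r t.1.2.2 →
      IsPrimitiveRoot t.2.1 (t.1.1 ^ (t.1.2.1 + 1)) → t.2.2 ^ t.1.1 = -1 →
      ManyWorks t.1.1 (t.1.1 ^ (t.1.2.1 + 1)) n D r t.1.2.2 E (X i w))
    (fun E [Field E] [NumberField E] [Algebra ℚ E] t => by
      by_cases h : Admissible t.1.1 t.1.2.1 n D r t.1.2.2 ∧ IsPrimitiveRoot t.2.1 (t.1.1 ^ (t.1.2.1 + 1)) ∧ t.2.2 ^ t.1.1 = -1
      · obtain ⟨h1, h2, h3⟩ := h
        obtain ⟨Y₀, -, J⟩ := H κ hκ E t.1.1 t.1.2.1 t.1.2.2 t.2.1 t.2.2 h1 h2 h3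
        filter_upwards [Pool.Agent.T3h87.SS.eventually_good 𝓕 h𝓕 hκ hη le_rfl J P X f hf hX hg] with w hw
        filter_upwards [hw] with i hi _ _ _
        exact not_not.1 hi
      · exact Eventually.of_forall fun w => Eventually.of_forall fun i h1 h2 h3 => absurd ⟨h1, h2, h3⟩ h)
  filter_upwards [key] with w hw k hk p s R ζ θ h1 h2 h3
  filter_upwards [hw k hk ((p, s, R), (ζ, θ))] with i hi
  exact hi h1 h2 h3

end Pool.Agent.Results.MP_17a657_ag.SparseManySections
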