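import Pool.Agent.N140.RO.Two
import Pool.Agent.T3h87.SS.Pro
import Pool.Agent.T3h87.SS.Fields

/-!
# The Tate conjecture at 2 for sparse families in the space of all elliptic surfaces with a section of order two, over all number
# fields at the same time

Let `K` be a number field, `ω` a basis of its ring of integers. Every elliptic curve over `K(t)` with a rational point of order two
has an equation `y² = x (x² + a x + b)` with polynomials `a`, `b`; we consider `a` of degree at most `m` and `b` of degree at most `N`,
with coefficients in the ring of integers, where `2 m ≤ N` and `N ≥ 5`. The coordinates of the coefficients form a vector `c` of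
integers. The pair `(a, b)` is good over a finite extension field `E` of `K` (`GoodOver`) if `b` and `a² - 4 b` are irreducible of
degree `N` over `E`, and for EVERY extension field `L` of `E` such that for each element of `L` which is algebraic over `E` the
Galois group of its minimal polynomial over `E` is solvable (for example `L = E`, or more generally if the elements of `L` which
are algebraic over `E` are in a normal extension `M` of `E` over which neither `b` nor `a² - 4 b` splits into linear factors), and
for EVERY constant `e ≠ 0` of `L`, the twist `y² = x (x² + e a x + e² b)` over `L(t)` has the following properties: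

(i) the Tate conjecture for divisors at the prime 2 holds (`TateAtTwo`): the classes in `V₂ Sel(E_e / L'(t))`, `L'` a separable
closure of `L`, which are fixed by the Galois group come from `E_e(L(t))`;

(ii) every point of `E_e(L(t))` is the sum of a point of order at most two and the double of a point, and if `E_e(L(t))` is finitely
generated, then it is finite;

(iii) the classes of 2-power order in `H¹(L(t), E_e)` which are trivial over the completions of `L(t)` at all finite places are zero.

The coordinates are independent random members of sparse families of integers, of the six kinds `Kind` (in the file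
`Pool.Agent.T3h87.LT.Kinds`): automatic sets (for example missing digits); random integers whose blocks of digits can be exchanged;
rearrangements of given digits; palindromes; residues with small Fourier coefficients; integer parts of functions of non-integral
order. `Fam` is a random integer, given by finitely many values with weights, with a size; different coordinates may be in families
of different kinds and of very different sizes.

Theorem. (1) There are `e` and `η > 0`, which depend on the kinds only, such that the probability that `(a, b)` is not good over `E`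
is at most `Y ^ (-η) ∑ (1 + |log (size of f l)|) ^ e`, where `Y` is a lower bound of the sizes, for every finite extension `E` of
`K` and `Y ≥ Y₀(E)`.
(2) There is `A` such that for every sequence `X 0, X 1, ...` of random vectors (with an arbitrary joint distribution) with
coordinates in such families with sizes at least `(i + 1) ^ A` (and at most `exp (Y ^ (1 / A))` for a common lower bound `Y` of
the sizes of the coordinates of `X i`), almost surely: for ALL finite extensions `E` of `K` in an algebraic closure the pair with the
coordinates `X i` is good over `E` for all but FINITELY many `i`.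

Proof. Local criterion of helper601 (`MP_17a657_ag.OrderTwoSections`): Frobenius elements at maximal ideals with three factorization
types show that the Galois groups of `b` and `a² - 4 b` over `E` are the full symmetric groups. We use the prime ideals of `E` of degree
one, over a positive proportion of the primes, and a sieve for sparse families: the uniform distribution of sums of local functions
(`Pool.Agent.T3h87.LT`).
-/

set_option autoImplicit false

namespace Pool.Agent.Results.MP_17a657_ag.SparseOrderTwo

open Polynomial NumberField MeasureTheory Filter Topology Pool.Agent.N140.RO Pool.Agent.N140.RO.Two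
open Pool.Agent.T3h87.LT (Fam Kind)
open Pool.Agent.T3h87.SS (probability HasLaw Growing)

/-- The coordinates of the coefficients of the pair `(a, b)`. -/
abbrev Idx (m N : ℕ) (J : Type) : Type := (Fin (m + 1) ⊕ Fin (N + 1)) × J

section

variable {K : Type} [Field K] {J : Type} [Fintype J] (ω : Module.Basis J ℤ (𝓞 K)) {m N : ℕ}

/-- The polynomial `a` over the ring of integers with the coordinates `c`. -/
noncomputable def polA (c : Idx m N J → ℤ) : K[X] :=
  ∑ j : Fin (m + 1), C (algebraMap (𝓞 K) K (vec ω c (Sum.inl j))) * X ^ (j : ℕ)

/-- The polynomial `b` over the ring of integers with the coordinates `c`. -/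
noncomputable def polB (c : Idx m N J → ℤ) : K[X] :=
  ∑ j : Fin (N + 1), C (algebraMap (𝓞 K) K (vec ω c (Sum.inr j))) * X ^ (j : ℕ)

/-- The pair with the coordinates `c` is good over the extension `E` of `K`. -/
def GoodOver (E : Type) [Field E] [Algebra K E] (c : Idx m N J → ℤ) : Prop :=
  Good E N ((polA ω c).map (algebraMap K E)) ((polB ω c).map (algebraMap K E))

end

theorem rare {J : Type} [Fintype J] {m N : ℕ} (hmN : 2 * m ≤ N) (hN : 5 ≤ N) (𝓕 : Idx m N J → ℤ → Set Fam)
    (h𝓕 : ∀ l, Kind (𝓕 l)) :
    ∃ (e : ℕ) (η : ℝ), 0 < η ∧ ∀ κ : Idx m N J → ℤ, (∀ l, κ l ≠ 0) →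
      ∀ (K E : Type) [Field K] [Field E] [NumberField E] [Algebra K E] (ω : Module.Basis J ℤ (𝓞 K)),
      ∃ Y₀ : ℝ, 1 ≤ Y₀ ∧ ∀ Y : ℝ, Y₀ ≤ Y → ∀ f : Idx m N J → Fam, (∀ l, f l ∈ 𝓕 l (κ l)) → (∀ l, Y ≤ (f l).size) →
        probability f (fun c => ¬ GoodOver ω E c) ≤ Y ^ (-η) * ∑ l, (1 + |Real.log (f l).size|) ^ e := by
  classical
  obtain ⟨e, η, hη, H⟩ := Pool.Agent.T3h87.SS.sparse_pro 𝓕 h𝓕
  refine ⟨e, η, hη, fun κ hκ K E _ _ _ _ ω => ?_⟩
  have hD : (0 : ℝ) < 1 / ((Pool.Agent.X243.Sol.DD N : ℕ) : ℝ) := by
    have h1 : 0 < Pool.Agent.X243.Sol.DD N := by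
      have := Pool.Agent.X243.Sol.D3_pos N
      unfold Pool.Agent.X243.Sol.DD
      have h3 : 0 < 4 * N := by omega
      positivity
    have h2 : (0 : ℝ) < ((Pool.Agent.X243.Sol.DD N : ℕ) : ℝ) := by exact_mod_cast h1
    positivity
  obtain ⟨Y₀, hY₀, J1⟩ := H κ hκ K E ω (2 * N + 2) 1 one_ne_zero (Bool × Fin 3) inferInstance
    (fun s P => Pool.Agent.X243.Sol.Gev3 m N s (𝓞 E ⧸ P)) _ hD
    (fun s P hP => Pool.Agent.X243.Gen.Gev3_G (by omega : 3 ≤ N) s hP.1)
  refine ⟨Y₀, hY₀, J1 _ fun c hc hbad => hbad ?_⟩
  obtain ⟨z, hz⟩ : ∃ z : Pairs m N (𝓞 E), z = (fun j => algebraMap (𝓞 K) (𝓞 E) (vec ω c (Sum.inl j)),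
      fun j => algebraMap (𝓞 K) (𝓞 E) (vec ω c (Sum.inr j))) := ⟨_, rfl⟩
  have hzv : toV z = fun i => algebraMap (𝓞 K) (𝓞 E) (vec ω c i) := by
    rw [hz]
    funext i
    rcases i with j | j <;> rfl
  have h2 : (2 : 𝓞 E) ≠ 0 := two_ne_zero
  have key := good_of (R := 𝓞 E) (k := E) h2 (B := 2 * N + 2) hmN hN (z := z) (fun s => by
    obtain ⟨P, hP, h⟩ := hc s
    refine ⟨P, hP.1, ?_⟩
    rw [hzv]
    exact h)
  have e1 : poly E z.1 = (polA ω c).map (algebraMap K E) := by
    rw [poly, polA, Polynomial.map_sum]
    refine Finset.sum_congr rfl fun j _ => ?_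
    rw [Polynomial.map_mul, Polynomial.map_pow, map_C, map_X, hz,
      ← IsScalarTower.algebraMap_apply, ← IsScalarTower.algebraMap_apply]
  have e2 : poly E z.2 = (polB ω c).map (algebraMap K E) := by
    rw [poly, polB, Polynomial.map_sum]
    refine Finset.sum_congr rfl fun j _ => ?_
    rw [Polynomial.map_mul, Polynomial.map_pow, map_C, map_X, hz,
      ← IsScalarTower.algebraMap_apply, ← IsScalarTower.algebraMap_apply]
  rw [e1, e2] at key
  exact key

/-- **Theorem.** Let `2 m ≤ N`, `N ≥ 5`, and let `𝓕 l` be kinds of sparse families, for the coordinates `l` of the coefficients of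
the pairs `(a, b)` of polynomials of degree at most `m`, `N`. There are `e`, `η > 0`, `A > 0` such that for all `κ l ≠ 0`, all number
fields `K` and bases `ω` of the ring of integers:
(1) for all number fields `E ⊇ K` there is `Y₀` such that the probability that a vector with independent coordinates in the families
`𝓕 l (κ l)` of sizes at least `Y ≥ Y₀` is not good over `E` is at most `Y ^ (-η) ∑ (1 + |log size|) ^ e`;
(2) for all sequences `X i` of such random vectors, which are `Growing A`, almost surely: for all finite extensions `E` of `K` all but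
finitely many of the vectors `X i` are good over `E`. -/
theorem result {J : Type} [Fintype J] {m N : ℕ} (hmN : 2 * m ≤ N) (hN : 5 ≤ N) (𝓕 : Idx m N J → ℤ → Set Fam)
    (h𝓕 : ∀ l, Kind (𝓕 l)) :
    ∃ (e : ℕ) (η A : ℝ), 0 < η ∧ 0 < A ∧ ∀ κ : Idx m N J → ℤ, (∀ l, κ l ≠ 0) →
      ∀ (K : Type) [Field K] [NumberField K] (ω : Module.Basis J ℤ (𝓞 K)),
      (∀ (E : Type) [Field E] [NumberField E] [Algebra K E],
        ∃ Y₀ : ℝ, 1 ≤ Y₀ ∧ ∀ Y : ℝ, Y₀ ≤ Y → ∀ f : Idx m N J → Fam, (∀ l, f l ∈ 𝓕 l (κ l)) → (∀ l, Y ≤ (f l).size) →
          probability f (fun c => ¬ GoodOver ω E c) ≤ Y ^ (-η) * ∑ l, (1 + |Real.log (f l).size|) ^ e) ∧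
      (∀ (Ω : Type) [MeasurableSpace Ω] (P : Measure Ω) [IsProbabilityMeasure P] (X : ℕ → Ω → Idx m N J → ℤ)
        (f : ℕ → Idx m N J → Fam), (∀ i l, f i l ∈ 𝓕 l (κ l)) → (∀ i, HasLaw P (X i) (f i)) → Growing A f →
        ∀ᵐ w ∂P, ∀ E : IntermediateField K (AlgebraicClosure K), FiniteDimensional K E →
          ∀ᶠ i in atTop, GoodOver ω E (X i w)) := by
  obtain ⟨e, η, hη, H⟩ := rare hmN hN 𝓕 h𝓕
  refine ⟨e, η, 4 / η + 2 * e / η, hη, by positivity, fun κ hκ K _ _ ω => ⟨fun E _ _ _ => H κ hκ K E ω,
    fun Ω _ P _ X f hf hX hg => ?_⟩⟩
  have key := Pool.Agent.T3h87.SS.ae_all_fields (K := K) P (fun E [Field E] => Unit)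
    (fun E [Field E] hE => inferInstance)
    (fun E [Field E] [Algebra K E] _ i w => GoodOver ω E (X i w))
    (fun E [Field E] [NumberField E] [Algebra K E] _ => by
      obtain ⟨Y₀, -, J1⟩ := H κ hκ K E ω
      filter_upwards [Pool.Agent.T3h87.SS.eventually_good 𝓕 h𝓕 hκ hη le_rfl J1 P X f hf hX hg] with w hw
      filter_upwards [hw] with i hi
      exact not_not.1 hi)
  filter_upwards [key] with w hw E hE
  exact hw E hE ()

end Pool.Agent.Results.MP_17a657_ag.SparseOrderTwo
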