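import Pool.Agent.N140.RO.Pb
import Pool.Agent.T3h87.SS.Pro
import Pool.Agent.T3h87.SS.Fields

/-!
# The Tate conjecture at 2 for the pullbacks of all rational elliptic surfaces with a section of order two and rational bad fibres
# along the maps `q / r` of sparse families, over all number fields at the same time

Let `K` be a number field, `ω` a basis of its ring of integers, `n ≥ 5` odd. The coordinates of the coefficients of two polynomials
`q`, `r` of degree at most `n` over the ring of integers form a vector `c` of integers. Let `E` be a finite extension of `K` and let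
`E₀ : y² = x (x² + a x + b)` be a rational elliptic surface over `E(s)` with a section of order two: `a`, `b` are polynomials over `E`
of degrees at most `2` and `4`, neither `b` nor `d = a² - 4 b` is a constant times a square, and `b d` is a product of linear
polynomials over `E` (`Base`). Nothing is assumed on the points of `E₀`. The pullback of `E₀` by `s = q(t) / r(t)` is the curve
`y² = x (x² + a' x + b')`, `a' = ∑ a_i q^i r^(2 - i)`, `b' = ∑ b_i q^i r^(4 - i)`, the generic fibre of an elliptic surface over the
projective line.

The forms of the bad places (`Form2`) are the polynomials `q - ξ r` for the roots `ξ` of `b d`, and `r` if not both `b` and `d` have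
degree 4 and `r` is not `1`. The vector `c` is good for `E₀` over `E` (`GoodOver`) if `q`, `r` are coprime, all the forms are
irreducible of degree `n`, and for EVERY extension field `L` of `E` such that for each element of `L` which is algebraic over `E` the
Galois group of its minimal polynomial over `E` is solvable (for example `L = E`, or more generally if the elements of `L` which
are algebraic over `E` lie in a normal extension of `E` over which none of the forms splits into linear factors) the Tate conjecture
for divisors at the prime 2 holds for the surface over `L` (`TateQ 2`): for the classes in `V₂ Sel(E / L'(t))` which are fixed by the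
Galois group there is `N > 0` such that `N` times the class comes from `E(L(t))`.

The coordinates are independent random members of sparse families of integers, of the six kinds `Kind` (in the file
`Pool.Agent.T3h87.LT.Kinds`): automatic sets (for example missing digits); random integers whose blocks of digits can be exchanged;
rearrangements of given digits; palindromes; residues with small Fourier coefficients; integer parts of functions of non-integral
order. `Fam` is a random integer, given by finitely many values with weights, with a size; different coordinates may be in families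
of different kinds and of very different sizes.

Theorem. (1) There are `e` and `η > 0`, which depend on the kinds only, such that the probability that `c` is not good for `E₀` over
`E` is at most `Y ^ (-η) ∑ (1 + |log (size of f l)|) ^ e`, where `Y` is a lower bound of the sizes, for every finite extension `E` of
`K`, every base `E₀` over `E` and `Y ≥ Y₀(E, E₀)`.
(2) There is `A` such that for every sequence `X 0, X 1, ...` of random vectors (with an arbitrary joint distribution) with
coordinates in such families with sizes at least `(i + 1) ^ A` (and at most `exp (Y ^ (1 / A))` for a common lower bound `Y` of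
the sizes of the coordinates of `X i`), almost surely: for ALL finite extensions `E` of `K` in an algebraic closure and for ALL bases
`E₀` over `E` the vector `X i` is good for `E₀` over `E` for all but FINITELY many `i`.

Proof. The local criterion of helper181 and helper601 (Frobenius elements at maximal ideals show that the Galois groups of the
forms over `E` are the full symmetric groups) at the prime ideals of `E` of degree one, over a positive proportion of the primes,
and a sieve for sparse families: the uniform distribution of sums of local functions (`Pool.Agent.T3h87.LT`).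
-/

set_option autoImplicit false

namespace Pool.Agent.Results.MP_17a657_ag.SparsePullbacks

open Polynomial NumberField MeasureTheory Filter Topology Pool.Agent.N140.RO Pool.Agent.N140.RO.Pb
open Pool.Agent.T3h87.LT (Fam Kind)
open Pool.Agent.T3h87.SS (probability HasLaw Growing)

/-- The coordinates of the coefficients of the pair `(q, r)`. -/
abbrev Ix (n : ℕ) (J : Type) : Type := (Fin (n + 1) ⊕ Fin (n + 1)) × J

section

variable {K : Type} [Field K] {J : Type} [Fintype J] (ω : Module.Basis J ℤ (𝓞 K)) {n : ℕ}

/-- The polynomial `q` over the ring of integers with the coordinates `c`. -/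
noncomputable def polQ (c : Ix n J → ℤ) : K[X] :=
  ∑ j : Fin (n + 1), C (algebraMap (𝓞 K) K (vec ω c (Sum.inl j))) * X ^ (j : ℕ)

/-- The polynomial `r` over the ring of integers with the coordinates `c`. -/
noncomputable def polR (c : Ix n J → ℤ) : K[X] :=
  ∑ j : Fin (n + 1), C (algebraMap (𝓞 K) K (vec ω c (Sum.inr j))) * X ^ (j : ℕ)

/-- The vector `c` is good for the base given by `(a, b)` over the extension `E` of `K`. -/
def GoodOver (E : Type) [Field E] [Algebra K E] (a b : E[X]) (c : Ix n J → ℤ) : Prop :=
  Good E n a b ((polQ ω c).map (algebraMap K E)) ((polR ω c).map (algebraMap K E))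

end

open Pool.Agent.X243.Gen Pool.Agent.N181.P3 in
theorem rare {J : Type} [Fintype J] {n : ℕ} (hn : 5 ≤ n) (hodd : ¬ 2 ∣ n) (𝓕 : Ix n J → ℤ → Set Fam) (h𝓕 : ∀ l, Kind (𝓕 l)) :
    ∃ (e : ℕ) (η : ℝ), 0 < η ∧ ∀ κ : Ix n J → ℤ, (∀ l, κ l ≠ 0) →
      ∀ (K E : Type) [Field K] [Field E] [NumberField E] [Algebra K E] (ω : Module.Basis J ℤ (𝓞 K)) (a b : E[X]), Pb.Base a b →
      ∃ Y₀ : ℝ, 1 ≤ Y₀ ∧ ∀ Y : ℝ, Y₀ ≤ Y → ∀ f : Ix n J → Fam, (∀ l, f l ∈ 𝓕 l (κ l)) → (∀ l, Y ≤ (f l).size) →
        probability f (fun c => ¬ GoodOver ω E a b c) ≤ Y ^ (-η) * ∑ l, (1 + |Real.log (f l).size|) ^ e := by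
  classical
  obtain ⟨e, η, hη, H⟩ := Pool.Agent.T3h87.SS.sparse_pro 𝓕 h𝓕
  refine ⟨e, η, hη, fun κ hκ K E _ _ _ _ ω a b hB => ?_⟩
  have hD' : (0 : ℝ) < ((Pool.Agent.X243.Sol.DD n * Pool.Agent.X243.Sol.DD n : ℕ) : ℝ) := by
    have h1 : 0 < Pool.Agent.X243.Sol.DD n := by
      have := Pool.Agent.X243.Sol.D3_pos n
      unfold Pool.Agent.X243.Sol.DD
      have h3 : 0 < 4 * n := by omega
      positivity
    exact_mod_cast Nat.mul_pos h1 h1
  obtain ⟨D, μ, ρ, hD, hρ⟩ := exists_roots (R := 𝓞 E) (mul_ne_zero hB.rat.hb0 hB.rat.hd0)
  obtain ⟨Y₀, hY₀, J1⟩ := H κ hκ K E ω (2 * n + 2) D hD (Option (Idx μ × Fin 3)) inferInstance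
    (fun s P => Lev n (cl D) (cm ρ) none (some none) s P)
    (1 / ((Pool.Agent.X243.Sol.DD n * Pool.Agent.X243.Sol.DD n : ℕ) : ℝ)) (by positivity)
    (fun s P hP => by
      have h1 := Lev_card' (by omega : 3 ≤ n) (cl D) (cm ρ) none (some none) s hP.1.1 hP.1.2.1
        hP.1.2.2.1 (cl_ne ρ hP.1.1 hP.2) (cl_det D ρ hP.1.1)
      have hc : Fintype.card (Fin (n + 1) ⊕ Fin (n + 1)) = 2 * n + 2 := by
        rw [Fintype.card_sum, Fintype.card_fin]
        omega
      rw [hc, one_div, inv_mul_le_iff₀ hD']
      exact_mod_cast h1)
  refine ⟨Y₀, hY₀, J1 _ fun c hc hbad => hbad ?_⟩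
  obtain ⟨z, hz⟩ : ∃ z : Pairs n (𝓞 E), z = (fun j => algebraMap (𝓞 K) (𝓞 E) (vec ω c (Sum.inl j)),
      fun j => algebraMap (𝓞 K) (𝓞 E) (vec ω c (Sum.inr j))) := ⟨_, rfl⟩
  have hzv : toV z = fun i => algebraMap (𝓞 K) (𝓞 E) (vec ω c i) := by
    rw [hz]
    funext i
    rcases i with j | j <;> rfl
  have key := good_pair (R := 𝓞 E) (k := E) hB hn hodd hD hρ (z := z) (fun s => by
      obtain ⟨P, hP, h⟩ := hc s
      refine ⟨P, ⟨hP.1.1, hP.1.2.1, hP.1.2.2.1, hP.2⟩, ?_⟩
      rw [hzv]
      exact h)
  have e1 : poly E z.1 = (polQ ω c).map (algebraMap K E) := by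
    rw [poly, polQ, Polynomial.map_sum]
    refine Finset.sum_congr rfl fun j _ => ?_
    rw [Polynomial.map_mul, Polynomial.map_pow, map_C, map_X, hz,
      ← IsScalarTower.algebraMap_apply, ← IsScalarTower.algebraMap_apply]
  have e2 : poly E z.2 = (polR ω c).map (algebraMap K E) := by
    rw [poly, polR, Polynomial.map_sum]
    refine Finset.sum_congr rfl fun j _ => ?_
    rw [Polynomial.map_mul, Polynomial.map_pow, map_C, map_X, hz,
      ← IsScalarTower.algebraMap_apply, ← IsScalarTower.algebraMap_apply]
  rw [e1, e2] at key
  exact key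

theorem countable_poly (E : Type) [Field E] (h : Countable E) : Countable (E[X] × E[X]) := by
  have h1 : Countable E[X] := by
    rw [← Cardinal.mk_le_aleph0_iff]
    refine Polynomial.cardinalMk_le_max.trans ?_
    rw [max_le_iff]
    exact ⟨Cardinal.mk_le_aleph0_iff.2 h, le_rfl⟩
  infer_instance

/-- **Theorem.** Let `𝓕 l` be kinds of sparse families, for the coordinates `l` of the coefficients of pairs `(q, r)` of polynomials
of degree at most the odd number `n ≥ 5`. There are `e`, `η > 0`, `A > 0` such that for all `κ l ≠ 0`, all number fields `K` and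
bases `ω` of the ring of integers:
(1) for all number fields `E ⊇ K` and all bases `(a, b)` over `E` there is `Y₀` such that the probability that a vector with
independent coordinates in the families `𝓕 l (κ l)` of sizes at least `Y ≥ Y₀` is not good for `(a, b)` over `E` is at most
`Y ^ (-η) ∑ (1 + |log size|) ^ e`;
(2) for all sequences `X i` of such random vectors, which are `Growing A`, almost surely: for all finite extensions `E` of `K` and all
bases `(a, b)` over `E` all but finitely many of the vectors `X i` are good for `(a, b)` over `E`. -/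
theorem result {J : Type} [Fintype J] {n : ℕ} (hn : 5 ≤ n) (hodd : ¬ 2 ∣ n) (𝓕 : Ix n J → ℤ → Set Fam) (h𝓕 : ∀ l, Kind (𝓕 l)) :
    ∃ (e : ℕ) (η A : ℝ), 0 < η ∧ 0 < A ∧ ∀ κ : Ix n J → ℤ, (∀ l, κ l ≠ 0) →
      ∀ (K : Type) [Field K] [NumberField K] (ω : Module.Basis J ℤ (𝓞 K)),
      (∀ (E : Type) [Field E] [NumberField E] [Algebra K E] (a b : E[X]), Pb.Base a b →
        ∃ Y₀ : ℝ, 1 ≤ Y₀ ∧ ∀ Y : ℝ, Y₀ ≤ Y → ∀ f : Ix n J → Fam, (∀ l, f l ∈ 𝓕 l (κ l)) → (∀ l, Y ≤ (f l).size) →
          probability f (fun c => ¬ GoodOver ω E a b c) ≤ Y ^ (-η) * ∑ l, (1 + |Real.log (f l).size|) ^ e) ∧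
      (∀ (Ω : Type) [MeasurableSpace Ω] (P : Measure Ω) [IsProbabilityMeasure P] (X : ℕ → Ω → Ix n J → ℤ) (f : ℕ → Ix n J → Fam),
        (∀ i l, f i l ∈ 𝓕 l (κ l)) → (∀ i, HasLaw P (X i) (f i)) → Growing A f →
        ∀ᵐ w ∂P, ∀ E : IntermediateField K (AlgebraicClosure K), FiniteDimensional K E → ∀ a b : Polynomial E, Pb.Base a b →
          ∀ᶠ i in atTop, GoodOver ω E a b (X i w)) := by
  obtain ⟨e, η, hη, H⟩ := rare hn hodd 𝓕 h𝓕
  refine ⟨e, η, 4 / η + 2 * e / η, hη, by positivity, fun κ hκ K _ _ ω => ⟨fun E _ _ _ a b hB => H κ hκ K E ω a b hB,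
    fun Ω _ P _ X f hf hX hg => ?_⟩⟩
  have key := Pool.Agent.T3h87.SS.ae_all_fields (K := K) P (fun E [Field E] => E[X] × E[X])
    (fun E [Field E] hE => countable_poly E hE)
    (fun E [Field E] [Algebra K E] t i w => Pb.Base t.1 t.2 → GoodOver ω E t.1 t.2 (X i w))
    (fun E [Field E] [NumberField E] [Algebra K E] t => by
      by_cases hB : Pb.Base t.1 t.2
      · obtain ⟨Y₀, -, J1⟩ := H κ hκ K E ω t.1 t.2 hB
        filter_upwards [Pool.Agent.T3h87.SS.eventually_good 𝓕 h𝓕 hκ hη le_rfl J1 P X f hf hX hg] with w hw
        filter_upwards [hw] with i hi _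
        exact not_not.1 hi
      · exact Eventually.of_forall fun w => Eventually.of_forall fun i h => absurd h hB)
  filter_upwards [key] with w hw E hE a b hB
  filter_upwards [hw E hE (a, b)] with i hi
  exact hi hB

end Pool.Agent.Results.MP_17a657_ag.SparsePullbacks
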