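import Pool.Agent.T3h87.SS.Sec
import Pool.Agent.T3h87.SS.Fields

/-!
# The Tate conjecture at 2 for sparse families of elliptic surfaces with several bad fibres and of surfaces with a section of infinite
# order, over all number fields at the same time

Let `K` be a number field, `ω` a basis of its ring of integers, `r ≥ 2`, `s ≥ 0` and `m_1, …, m_s ≥ 1`. We consider polynomials `g` of
degree at most `r` and `q_1, …, q_s` of degree at most `m_1, …, m_s` with coefficients in the ring of integers; the coordinates of
the coefficients form a vector `c` of integers. Let `b = q_1 ⋯ q_s`. The vector `c` is good over a finite extension field `E` of `K`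
(`GoodOver`) if:

(a) if the `q_i` and `g² - 4 b` are irreducible over `E` and `b`, `g² - 4 b` are not constants times norms from a quadratic
extension (`NotNorm`), then for every `e ≠ 0` in `E` and every polynomial `h` over `E` of odd degree such that the irreducible divisors
of `b (g² - 4 b)` remain irreducible after the substitution `t ↦ h(t)`, the Tate conjecture for divisors at the prime 2
(`TateAtTwo`) holds for the surface `y² = x (x² + e g(h(t)) x + e² b(h(t)))` over `E(t)`;

(b) for every subset `U` of the indices and `a = g² - ∏_{i ∈ U} q_i - ∏_{i ∉ U} q_i` (the surface `y² = x (x² + a x + b)` has then a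
section with `x = ∏_{i ∈ U} q_i`, in general of infinite order): if the `q_i` and `a² - 4 b` are irreducible over `E` and `b`,
`a² - 4 b` are not constants times norms from a quadratic extension, then for every polynomial `h` over `E` of odd degree such that
the irreducible divisors of `b (a² - 4 b)` remain irreducible after the substitution `t ↦ h(t)`, the Tate conjecture at 2
holds for the surface `y² = x (x² + a(h(t)) x + b(h(t)))` over `E(t)`.

The coordinates are independent random members of sparse families of integers, of the six kinds `Kind` (in the file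
`Pool.Agent.T3h87.LT.Kinds`): automatic sets (for example missing digits); random integers whose blocks of digits can be exchanged;
rearrangements of given digits; palindromes; residues with small Fourier coefficients; integer parts of functions of non-integral
order. `Fam` is a random integer, given by finitely many values with weights, with a size; different coordinates may be in families
of different kinds and of very different sizes.

Theorem. (1) There are `e` and `η > 0`, which depend on the kinds only, such that the probability that `c` is not good over `E`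
is at most `Y ^ (-η) ∑ (1 + |log (size of f l)|) ^ e`, where `Y` is a lower bound of the sizes, for every finite extension `E` of
`K` and `Y ≥ Y₀(E)`.
(2) There is `A` such that for every sequence `X 0, X 1, ...` of random vectors (with an arbitrary joint distribution) with
coordinates in such families with sizes at least `(i + 1) ^ A` (and at most `exp (Y ^ (1 / A))` for a common lower bound `Y` of
the sizes of the coordinates of `X i`), almost surely: for ALL finite extensions `E` of `K` in an algebraic closure `X i` is good over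
`E` for all but FINITELY many `i`.

Proof. The local tests of `AlmostAllWithSection` (helper939), at the prime ideals of `E` of degree one, over a positive proportion of
the primes, and a sieve for sparse families: the uniform distribution of sums of local functions (`Pool.Agent.T3h87.LT`).
-/

set_option autoImplicit false

namespace Pool.Agent.Results.MP_17a657_ag.SparseSections

open Polynomial NumberField MeasureTheory Filter Topology Pool.Agent.R939.EI Pool.Agent.TH115.GD
open Pool.Agent.N140.RO (vec)
open Pool.Agent.T3h87.LT (Fam Kind)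
open Pool.Agent.T3h87.SS (probability HasLaw Growing GoodA GoodB)

/-- The coordinates of the coefficients of `g` and of `q_1, …, q_s`. -/
abbrev Idx (r : ℕ) {s : ℕ} (m : Fin s → ℕ) (J : Type) : Type := (Fin (r + 1) ⊕ (i : Fin s) × Fin (m i + 1)) × J

section

variable {K : Type} [Field K] {J : Type} [Fintype J] (ω : Module.Basis J ℤ (𝓞 K)) {r s : ℕ} {m : Fin s → ℕ}

/-- The coefficients of `g`, over the extension `E` of `K`. -/
noncomputable def coeG (E : Type) [Field E] [Algebra K E] (c : Idx r m J → ℤ) : Fin (r + 1) → E :=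
  fun j => algebraMap K E (algebraMap (𝓞 K) K (vec ω c (Sum.inl j)))

/-- The coefficients of the `q_i`, over the extension `E` of `K`. -/
noncomputable def coeQ (E : Type) [Field E] [Algebra K E] (c : Idx r m J → ℤ) : (i : Fin s) → Fin (m i + 1) → E :=
  fun i j => algebraMap K E (algebraMap (𝓞 K) K (vec ω c (Sum.inr ⟨i, j⟩)))

/-- The vector `c` is good over the extension `E` of `K`. -/
def GoodOver (E : Type) [Field E] [Algebra K E] (c : Idx r m J → ℤ) : Prop :=
  GoodA E (coeG ω E c) (coeQ ω E c) ∧ ∀ U : Finset (Fin s), GoodB E U (coeG ω E c) (coeQ ω E c)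

end

theorem rare {J : Type} [Fintype J] {r s : ℕ} {m : Fin s → ℕ} (hr : 2 ≤ r) (hm : ∀ i, 1 ≤ m i) (𝓕 : Idx r m J → ℤ → Set Fam)
    (h𝓕 : ∀ l, Kind (𝓕 l)) :
    ∃ (e : ℕ) (η : ℝ), 0 < η ∧ ∀ κ : Idx r m J → ℤ, (∀ l, κ l ≠ 0) →
      ∀ (K E : Type) [Field K] [Field E] [NumberField E] [Algebra K E] (ω : Module.Basis J ℤ (𝓞 K)),
      ∃ Y₀ : ℝ, 1 ≤ Y₀ ∧ ∀ Y : ℝ, Y₀ ≤ Y → ∀ f : Idx r m J → Fam, (∀ l, f l ∈ 𝓕 l (κ l)) → (∀ l, Y ≤ (f l).size) →
        probability f (fun c => ¬ GoodOver ω E c) ≤ Y ^ (-η) * ∑ l, (1 + |Real.log (f l).size|) ^ e := by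
  classical
  obtain ⟨e, η, hη, H⟩ := Pool.Agent.T3h87.SS.sparse_pro 𝓕 h𝓕
  refine ⟨e, η, hη, fun κ hκ K E _ _ _ _ ω => ?_⟩
  have hM0 : (0 : ℝ) < ((4 * r + 2 * ∑ i, m i : ℕ) : ℝ) := by
    have : 0 < 4 * r + 2 * ∑ i, m i := by omega
    exact_mod_cast this
  have hD : (0 : ℝ) < 1 / (4 * 9 ^ s * ((4 * r + 2 * ∑ i, m i : ℕ) : ℝ) ^ 2) := by positivity
  obtain ⟨Y₀, hY₀, J1⟩ := H κ hκ K E ω 7 1 one_ne_zero (Pool.Agent.T3h87.SS.Sg s) inferInstance
    (fun x P => Pool.Agent.T3h87.SS.EvS E r m x P) _ hD
    (fun x P hP => Pool.Agent.T3h87.SS.card_EvS hr hm x P hP)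
  refine ⟨Y₀, hY₀, J1 _ fun c hc hbad => hbad ?_⟩
  have key := Pool.Agent.T3h87.SS.good_of_tests (r := r) (m := m) (E := E) (c₀ := 1)
    (fun i => algebraMap (𝓞 K) (𝓞 E) (vec ω c i)) hc
  have e1 : (fun j => algebraMap (𝓞 E) E (algebraMap (𝓞 K) (𝓞 E) (vec ω c (Sum.inl j)))) = coeG ω E c := by
    funext j
    rw [coeG, ← IsScalarTower.algebraMap_apply, ← IsScalarTower.algebraMap_apply]
  have e2 : (fun (i : Fin s) (j : Fin (m i + 1)) => algebraMap (𝓞 E) E (algebraMap (𝓞 K) (𝓞 E) (vec ω c (Sum.inr ⟨i, j⟩)))) =
      coeQ ω E c := by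
    funext i j
    rw [coeQ, ← IsScalarTower.algebraMap_apply, ← IsScalarTower.algebraMap_apply]
  rw [e1, e2] at key
  exact key

/-- **Theorem.** Let `r ≥ 2`, `m i ≥ 1`, and let `𝓕 l` be kinds of sparse families, for the coordinates `l` of the coefficients of
`g`, `q_1, …, q_s`. There are `e`, `η > 0`, `A > 0` such that for all `κ l ≠ 0`, all number fields `K` and bases `ω` of the
ring of integers:
(1) for all number fields `E ⊇ K` there is `Y₀` such that the probability that a vector with independent coordinates in the families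
`𝓕 l (κ l)` of sizes at least `Y ≥ Y₀` is not good over `E` is at most `Y ^ (-η) ∑ (1 + |log size|) ^ e`;
(2) for all sequences `X i` of such random vectors, which are `Growing A`, almost surely: for all finite extensions `E` of `K` all but
finitely many of the vectors `X i` are good over `E`. -/
theorem result {J : Type} [Fintype J] {r s : ℕ} {m : Fin s → ℕ} (hr : 2 ≤ r) (hm : ∀ i, 1 ≤ m i) (𝓕 : Idx r m J → ℤ → Set Fam)
    (h𝓕 : ∀ l, Kind (𝓕 l)) :
    ∃ (e : ℕ) (η A : ℝ), 0 < η ∧ 0 < A ∧ ∀ κ : Idx r m J → ℤ, (∀ l, κ l ≠ 0) →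
      ∀ (K : Type) [Field K] [NumberField K] (ω : Module.Basis J ℤ (𝓞 K)),
      (∀ (E : Type) [Field E] [NumberField E] [Algebra K E],
        ∃ Y₀ : ℝ, 1 ≤ Y₀ ∧ ∀ Y : ℝ, Y₀ ≤ Y → ∀ f : Idx r m J → Fam, (∀ l, f l ∈ 𝓕 l (κ l)) → (∀ l, Y ≤ (f l).size) →
          probability f (fun c => ¬ GoodOver ω E c) ≤ Y ^ (-η) * ∑ l, (1 + |Real.log (f l).size|) ^ e) ∧
      (∀ (Ω : Type) [MeasurableSpace Ω] (P : Measure Ω) [IsProbabilityMeasure P] (X : ℕ → Ω → Idx r m J → ℤ)
        (f : ℕ → Idx r m J → Fam), (∀ i l, f i l ∈ 𝓕 l (κ l)) → (∀ i, HasLaw P (X i) (f i)) → Growing A f →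
        ∀ᵐ w ∂P, ∀ E : IntermediateField K (AlgebraicClosure K), FiniteDimensional K E →
          ∀ᶠ i in atTop, GoodOver ω E (X i w)) := by
  obtain ⟨e, η, hη, H⟩ := rare hr hm 𝓕 h𝓕
  refine ⟨e, η, 4 / η + 2 * e / η, hη, by positivity, fun κ hκ K _ _ ω => ⟨fun E _ _ _ => H κ hκ K E ω,
    fun Ω _ P _ X f hf hX hg => ?_⟩⟩
  have key := Pool.Agent.T3h87.SS.ae_all_fields (K := K) P (fun E [Field E] => Unit)
    (fun E [Field E] hE => inferInstance)
    (fun E [Field E] [Algebra K E] _ i w => GoodOver ω E (X i w))
    (fun E [Field E] [NumberField E] [Algebra K E] _ => by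
      obtain ⟨Y₀, -, J1⟩ := H κ hκ K E ω
      filter_upwards [Pool.Agent.T3h87.SS.eventually_good 𝓕 h𝓕 hκ hη le_rfl J1 P X f hf hX hg] with w hw
      filter_upwards [hw] with i hi
      exact not_not.1 hi)
  filter_upwards [key] with w hw E hE
  exact hw E hE ()

end Pool.Agent.Results.MP_17a657_ag.SparseSections
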